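import Mathlib
import Pool.Agent.U798.GP.Spec

set_option autoImplicit false

open MeasureTheory Filter Topology
open Pool.Agent.U798.BV Pool.Agent.U798.GP

namespace Pool.Agent.U928.GP

lemma norm_hc_le (μ : Measure (AddCircle (1 : ℝ))) (hμ : IsProbabilityMeasure μ) (n : ℤ) :
    ‖hc μ n‖ ≤ 1 := by
  unfold hc
  have h := norm_integral_le_of_norm_le_const (μ := μ)
    (f := fun x : AddCircle (1 : ℝ) => (fourier n x : ℂ)) (C := 1)
    (Filter.Eventually.of_forall fun x => by rw [fourier_apply]; exact (Circle.norm_coe _).le)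
  simpa using h

lemma summ {ι : Type} (k : ι → ℤ) (c : ι → ℂ) (hc1 : Summable c)
    (μ : Measure (AddCircle (1 : ℝ))) (hμ : IsProbabilityMeasure μ) :
    Summable fun s => c s * hc μ (k s) := by
  refine Summable.of_norm_bounded hc1.norm fun s => ?_
  rw [norm_mul]
  exact mul_le_of_le_one_right (norm_nonneg _) (norm_hc_le μ hμ _)

lemma mult (p q r m : ℕ) (hr : r.Prime) (hm : 1 ≤ m) (hp : (p : ZMod r) ^ m = 1)
    (hq : (q : ZMod r) ^ m = 1) (hTW : S_TW) (φ : ZMod r → ℂ)
    (hφ : ∀ g x : ZMod r, g ^ m = 1 → φ (g * x) = φ x)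
    {ι : Type} (k k' : ι → ℤ) (c c' : ι → ℂ) (hc1 : Summable c) (hc2 : Summable c')
    (hrel : ∀ μ, Inv p q μ → ∑' s, (c s * hc μ (k s) + c' s * hc μ (k' s)) = 0) :
    ∀ μ, Inv p q μ → ∑' s, ((φ (k s : ZMod r) * c s) * hc μ (k s) +
      (φ (k' s : ZMod r) * c' s) * hc μ (k' s)) = 0 := by
  intro μ hμ
  obtain ⟨w, hw⟩ := hTW p q r m hr hm hp hq φ hφ
  obtain ⟨ν, hν, hsum⟩ := hw μ hμ
  have hs : ∀ a, Summable fun s => c s * hc (ν a) (k s) + c' s * hc (ν a) (k' s) := fun a =>
    (summ k c hc1 (ν a) (hν a).1).add (summ k' c' hc2 (ν a) (hν a).1)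
  have h1 : ∑' s, ∑ a, w a * (c s * hc (ν a) (k s) + c' s * hc (ν a) (k' s)) = 0 := by
    rw [Summable.tsum_finsetSum (fun a _ => (hs a).mul_left (w a))]
    refine Finset.sum_eq_zero fun a _ => ?_
    rw [tsum_mul_left, hrel (ν a) (hν a), mul_zero]
  rw [← h1]
  refine tsum_congr fun s => ?_
  have e1 := hsum (k s)
  have e2 := hsum (k' s)
  have : ∑ a, w a * (c s * hc (ν a) (k s) + c' s * hc (ν a) (k' s)) =
      c s * ∑ a, w a * hc (ν a) (k s) + c' s * ∑ a, w a * hc (ν a) (k' s) := by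
    rw [Finset.mul_sum, Finset.mul_sum, ← Finset.sum_add_distrib]
    exact Finset.sum_congr rfl fun a _ => by ring
  rw [this, e1, e2]
  ring

lemma mem_Sm_left (p q : ℕ) (hp : 2 ≤ p) : p ∈ Sm (p * q) :=
  ⟨by omega, fun l _ h => Dvd.dvd.mul_right h q⟩

lemma mem_Sm_right (p q : ℕ) (hq : 2 ≤ q) : q ∈ Sm (p * q) :=
  ⟨by omega, fun l _ h => Dvd.dvd.mul_left h p⟩

lemma cl_pow (p q r m : ℕ) (hp : (p : ZMod r) ^ m = 1) (hq : (q : ZMod r) ^ m = 1) (s t : ℕ)
    (h : Cl p q (s : ℤ) (t : ℤ)) : (s : ZMod r) ^ m = (t : ZMod r) ^ m := by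
  obtain ⟨a, b, c, d, h⟩ := h
  have h1 : ((s : ZMod r)) * (p : ZMod r) ^ a * (q : ZMod r) ^ b =
      (t : ZMod r) * (p : ZMod r) ^ c * (q : ZMod r) ^ d := by
    have := congrArg (Int.cast : ℤ → ZMod r) h
    push_cast at this
    exact this
  have h2 := congrArg (fun x => x ^ m) h1
  simp only [mul_pow] at h2
  have key : ∀ (x : ZMod r) (n : ℕ), x ^ m = 1 → (x ^ n) ^ m = 1 := fun x n hx => by
    rw [← pow_mul, mul_comm, pow_mul, hx, one_pow]
  rw [key _ a hp, key _ b hq, key _ c hp, key _ d hq] at h2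
  simpa using h2

open Classical in
theorem t_TWL : S_CHEV → S_ODD → S_TW → S_TWL := by
  intro hCHEV hODD hTW p q hp2 hq2 b b' hb hb' H t ht μ hμ
  -- step 1
  have R1 : ∀ μ, Inv p q μ → ∑' s : Sm (p * q), (b s * hc μ ((s : ℕ) : ℤ)) = 0 := by
    obtain ⟨r, m, hr, -, h2, hodd, hs⟩ := hODD p q hp2 hq2
    have hm : 1 ≤ m := hodd.pos
    have : Fact r.Prime := ⟨hr⟩
    have : Fact (2 < r) := ⟨h2⟩
    have hne : (-1 : ZMod r) ≠ 1 := ZMod.neg_one_ne_one
    intro μ hμ
    have := mult p q r m hr hm (hs p (mem_Sm_left p q hp2)) (hs q (mem_Sm_right p q hq2)) hTW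
      (fun x => if x ^ m = 1 then 1 else 0)
      (fun g x hg => by simp only [mul_pow, hg, one_mul])
      (fun s : Sm (p * q) => ((s : ℕ) : ℤ)) (fun s : Sm (p * q) => -((s : ℕ) : ℤ))
      (fun s => b s) (fun s => b' s) hb hb' H μ hμ
    refine Eq.trans (tsum_congr fun s => ?_) this
    have e1 : (((s : ℕ) : ℤ) : ZMod r) ^ m = 1 := by
      rw [Int.cast_natCast]; exact hs s s.2
    have e2 : ¬ ((-((s : ℕ) : ℤ) : ℤ) : ZMod r) ^ m = 1 := by
      rw [Int.cast_neg, hodd.neg_pow, e1]; exact hne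
    simp only [e1, e2, if_true, if_false]
    ring
  -- step 2
  have R2 : ∀ F : Finset (Sm (p * q)), ∃ Φ : Sm (p * q) → ℂ, (∀ s, Φ s = 0 ∨ Φ s = 1) ∧
      (∀ s : Sm (p * q), Cl p q ((s : ℕ) : ℤ) (t : ℤ) → Φ s = 1) ∧
      (∀ s ∈ F, ¬ Cl p q ((s : ℕ) : ℤ) (t : ℤ) → Φ s = 0) ∧
      ∀ μ, Inv p q μ → ∑' s : Sm (p * q), ((Φ s * b s) * hc μ ((s : ℕ) : ℤ)) = 0 := by
    intro F
    induction F using Finset.induction_on with
    | empty =>
      exact ⟨fun _ => 1, fun _ => Or.inr rfl, fun _ _ => rfl, fun s hs => by simp at hs,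
        fun μ hμ => by simpa using R1 μ hμ⟩
    | insert s0 F hs0 ih =>
      obtain ⟨Φ, h01, h1, h0, hrel⟩ := ih
      by_cases hcl : Cl p q ((s0 : ℕ) : ℤ) (t : ℤ)
      · refine ⟨Φ, h01, h1, fun s hs hns => ?_, hrel⟩
        rcases Finset.mem_insert.1 hs with rfl | hs
        · exact absurd hcl hns
        · exact h0 s hs hns
      · obtain ⟨r, m, hr, -, hm, hp, hq, hst⟩ := hCHEV p q hp2 hq2 s0 s0.2 t ht hcl
        have hΦ : Summable fun s : Sm (p * q) => Φ s * b s := by
          refine Summable.of_norm_bounded hb.norm fun s => ?_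
          rw [norm_mul]
          rcases h01 s with h | h <;> simp [h]
        refine ⟨fun s => (if ((s : ℕ) : ZMod r) ^ m = (t : ZMod r) ^ m then 1 else 0) * Φ s,
          fun s => ?_, fun s hs => ?_, fun s hs hns => ?_, fun μ hμ => ?_⟩
        · dsimp only
          split_ifs
          · simpa using h01 s
          · left; simp
        · dsimp only
          rw [if_pos (cl_pow p q r m hp hq _ _ hs), h1 s hs, one_mul]
        · dsimp only
          rcases Finset.mem_insert.1 hs with rfl | hs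
          · rw [if_neg hst, zero_mul]
          · rw [h0 s hs hns, mul_zero]
        · have := mult p q r m hr hm hp hq hTW
            (fun x => if x ^ m = (t : ZMod r) ^ m then 1 else 0)
            (fun g x hg => by simp only [mul_pow, hg, one_mul])
            (fun s : Sm (p * q) => ((s : ℕ) : ℤ)) (fun s : Sm (p * q) => ((s : ℕ) : ℤ))
            (fun s => Φ s * b s) (fun _ => 0) hΦ summable_zero
            (fun μ hμ => by simpa using hrel μ hμ) μ hμ
          refine Eq.trans (tsum_congr fun s => ?_) this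
          simp only [Int.cast_natCast]
          ring
  -- step 3
  choose Φ h01 h1 h0 hrel using R2
  have hlim : Tendsto (fun F : Finset (Sm (p * q)) =>
      ∑' s : Sm (p * q), ((Φ F s * b s) * hc μ ((s : ℕ) : ℤ))) atTop
      (𝓝 (∑' s : Sm (p * q), Set.indicator {n : ℕ | Cl p q n t}
        (fun n => b n * hc μ (n : ℤ)) (s : ℕ))) := by
    refine tendsto_tsum_of_dominated_convergence (bound := fun s : Sm (p * q) => ‖b s‖) hb.norm ?_ ?_
    · intro s
      refine tendsto_const_nhds.congr' ?_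
      filter_upwards [eventually_ge_atTop {s}] with F hF
      have hsF : s ∈ F := hF (Finset.mem_singleton_self s)
      by_cases hcl : Cl p q ((s : ℕ) : ℤ) (t : ℤ)
      · rw [Set.indicator_of_mem (by exact hcl), h1 F s hcl, one_mul]
      · rw [Set.indicator_of_notMem (by exact hcl), h0 F s hsF hcl, zero_mul, zero_mul]
    · refine Filter.Eventually.of_forall fun F s => ?_
      rw [norm_mul, norm_mul]
      have hh := norm_hc_le μ hμ.1 ((s : ℕ) : ℤ)
      rcases h01 F s with h | h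
      · simp [h]
      · rw [h, norm_one, one_mul]
        exact mul_le_of_le_one_right (norm_nonneg _) hh
  have h00 : (fun F : Finset (Sm (p * q)) =>
      ∑' s : Sm (p * q), ((Φ F s * b s) * hc μ ((s : ℕ) : ℤ))) = fun _ => 0 := by
    funext F
    exact hrel F μ hμ
  rw [h00] at hlim
  exact (tendsto_nhds_unique hlim tendsto_const_nhds)

end Pool.Agent.U928.GP
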